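import Mathlib
import Pool.Agent.TH841.ZC.Stm

/-! ZC-MUL: the classes of the points form a group, by explicit formulas. -/

set_option autoImplicit false

namespace Pool.Agent.TH469.ZC

open Pool.Agent.TH841.ZC

variable {K : Type} [Field K]

/-- a pair of squares is a class -/
theorem cls_sq {A B s t : K} (_hs : s ≠ 0) (ht : t ≠ 0) : Cls K A B (s ^ 2) (t ^ 2) := by
  refine ⟨1, 0, s / t, 1 / t, Or.inl one_ne_zero, ?_, ?_⟩
  · field_simp
    ring
  · field_simp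
    ring

/-- the composition formulas -/
theorem comp {A B a b a2 b2 M e x y M2 e2 x2 y2 : K}
    (h1 : a * M ^ 2 - A * e ^ 2 = b * x ^ 2) (h2 : a * M ^ 2 - B * e ^ 2 = a * b * y ^ 2)
    (h3 : a2 * M2 ^ 2 - A * e2 ^ 2 = b2 * x2 ^ 2)
    (h4 : a2 * M2 ^ 2 - B * e2 ^ 2 = a2 * b2 * y2 ^ 2) :
    (a * a2) * (b2 * M * e * x2 * y2 - b * M2 * e2 * x * y) ^ 2 -
      A * (a * M ^ 2 * e2 ^ 2 - a2 * M2 ^ 2 * e ^ 2) ^ 2 =
        (b * b2) * (a2 * M2 * x * y2 * e - a * M * x2 * y * e2) ^ 2 ∧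
    (a * a2) * (b2 * M * e * x2 * y2 - b * M2 * e2 * x * y) ^ 2 -
      B * (a * M ^ 2 * e2 ^ 2 - a2 * M2 ^ 2 * e ^ 2) ^ 2 =
        (a * a2) * (b * b2) * (M2 * y * x2 * e - M * y2 * x * e2) ^ 2 := by
  obtain ⟨D, hD⟩ : ∃ D : K, D = a * M ^ 2 * e2 ^ 2 - a2 * M2 ^ 2 * e ^ 2 := ⟨_, rfl⟩
  have d1 : D = b * x ^ 2 * e2 ^ 2 - b2 * x2 ^ 2 * e ^ 2 := by
    rw [hD]; linear_combination e2 ^ 2 * h1 - e ^ 2 * h3
  have d2 : D = a * b * y ^ 2 * e2 ^ 2 - a2 * b2 * y2 ^ 2 * e ^ 2 := by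
    rw [hD]; linear_combination e2 ^ 2 * h2 - e ^ 2 * h4
  have p1 : a * M ^ 2 * (b2 * x2 ^ 2) - a2 * M2 ^ 2 * (b * x ^ 2) = -(A * D) := by
    linear_combination (b2 * x2 ^ 2) * h1 - (b * x ^ 2) * h3 + A * d1
  have p2 : a * M ^ 2 * (a2 * b2 * y2 ^ 2) - a2 * M2 ^ 2 * (a * b * y ^ 2) = -(B * D) := by
    linear_combination (a2 * b2 * y2 ^ 2) * h2 - (a * b * y ^ 2) * h4 + B * d2
  rw [← hD]
  constructor
  · have e1 : (a * a2) * (b2 * M * e * x2 * y2 - b * M2 * e2 * x * y) ^ 2 -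
        (b * b2) * (a2 * M2 * x * y2 * e - a * M * x2 * y * e2) ^ 2 =
        (a * M ^ 2 * (b2 * x2 ^ 2) - a2 * M2 ^ 2 * (b * x ^ 2)) *
          -(a * b * y ^ 2 * e2 ^ 2 - a2 * b2 * y2 ^ 2 * e ^ 2) := by ring
    rw [p1, ← d2] at e1
    linear_combination e1
  · have e1 : (a * a2) * (b2 * M * e * x2 * y2 - b * M2 * e2 * x * y) ^ 2 -
        (a * a2) * (b * b2) * (M2 * y * x2 * e - M * y2 * x * e2) ^ 2 =
        (a * M ^ 2 * (a2 * b2 * y2 ^ 2) - a2 * M2 ^ 2 * (a * b * y ^ 2)) *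
          -(b * x ^ 2 * e2 ^ 2 - b2 * x2 ^ 2 * e ^ 2) := by ring
    rw [p2, ← d1] at e1
    linear_combination e1

theorem mul : MUL := by
  intro K _ _ A B a b a2 b2 hA hB hAB ha hb ha2 hb2
  rintro ⟨M, e, x, y, hMe, h1, h2⟩ ⟨M2, e2, x2, y2, hMe2, h3, h4⟩
  by_cases hD : a * M ^ 2 * e2 ^ 2 - a2 * M2 ^ 2 * e ^ 2 = 0
  swap
  · obtain ⟨c1, c2⟩ := comp h1 h2 h3 h4
    exact ⟨_, _, _, _, Or.inr hD, c1, c2⟩
  by_cases hZ : b2 * M * e * x2 * y2 - b * M2 * e2 * x * y = 0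
  swap
  · obtain ⟨c1, c2⟩ := comp h1 h2 h3 h4
    exact ⟨_, _, _, _, Or.inl hZ, c1, c2⟩
  have h4' : a2 * M2 ^ 2 - B * e2 ^ 2 = a2 * b2 * (-y2) ^ 2 := by rw [neg_sq]; exact h4
  by_cases hZ' : b2 * M * e * x2 * (-y2) - b * M2 * e2 * x * y = 0
  swap
  · obtain ⟨c1, c2⟩ := comp h1 h2 h3 h4'
    exact ⟨_, _, _, _, Or.inl hZ', c1, c2⟩
  -- both products vanish
  have hb0 : b * (M2 * e2 * x * y) = 0 := by
    have : 2 * (b * (M2 * e2 * x * y)) = 0 := by linear_combination -hZ - hZ'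
    simpa using this
  have k1 : M2 * e2 * x * y = 0 := (mul_eq_zero.1 hb0).resolve_left hb
  have hb20 : b2 * (M * e * x2 * y2) = 0 := by
    linear_combination hZ + b * k1
  have k2 : M * e * x2 * y2 = 0 := (mul_eq_zero.1 hb20).resolve_left hb2
  -- it is enough that `a a2` and `b b2` are squares
  suffices hs : ∃ s t : K, s ^ 2 = a * a2 ∧ t ^ 2 = b * b2 by
    obtain ⟨s, t, hs, ht⟩ := hs
    rw [← hs, ← ht]
    refine cls_sq ?_ ?_
    · rintro rfl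
      have : a * a2 ≠ 0 := mul_ne_zero ha ha2
      apply this
      rw [← hs]; ring
    · rintro rfl
      have : b * b2 ≠ 0 := mul_ne_zero hb hb2
      apply this
      rw [← ht]; ring
  by_cases he : e = 0
  · -- the point at infinity
    subst he
    have hM : M ≠ 0 := by rcases hMe with h | h; exact h; exact absurd rfl h
    have he2 : e2 = 0 := by
      have h5 : a * M ^ 2 * e2 ^ 2 = 0 := by linear_combination hD
      have h6 : a * M ^ 2 ≠ 0 := mul_ne_zero ha (pow_ne_zero 2 hM)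
      have h7 := (mul_eq_zero.1 h5).resolve_left h6
      exact pow_eq_zero_iff (two_ne_zero) |>.1 h7
    subst he2
    have hM2 : M2 ≠ 0 := by rcases hMe2 with h | h; exact h; exact absurd rfl h
    -- `a M^2 = b x^2`, `M^2 = b y^2`
    have q2 : M ^ 2 = b * y ^ 2 := by
      apply mul_left_cancel₀ ha
      linear_combination h2
    have q4 : M2 ^ 2 = b2 * y2 ^ 2 := by
      apply mul_left_cancel₀ ha2
      linear_combination h4
    have hy : y ≠ 0 := by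
      rintro rfl
      apply hM
      have : M ^ 2 = 0 := by rw [q2]; ring
      exact pow_eq_zero_iff (two_ne_zero) |>.1 this
    have hy2 : y2 ≠ 0 := by
      rintro rfl
      apply hM2
      have : M2 ^ 2 = 0 := by rw [q4]; ring
      exact pow_eq_zero_iff (two_ne_zero) |>.1 this
    have q1 : a * M ^ 2 = b * x ^ 2 := by linear_combination h1
    have q3 : a2 * M2 ^ 2 = b2 * x2 ^ 2 := by linear_combination h3
    refine ⟨x * x2 / (y * y2), M * M2 / (y * y2), ?_, ?_⟩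
    · rw [div_pow, div_eq_iff (pow_ne_zero 2 (mul_ne_zero hy hy2))]
      -- a y^2 = x^2
      have r1 : a * y ^ 2 = x ^ 2 := by
        apply mul_left_cancel₀ hb
        linear_combination q1 - a * q2
      have r2 : a2 * y2 ^ 2 = x2 ^ 2 := by
        apply mul_left_cancel₀ hb2
        linear_combination q3 - a2 * q4
      linear_combination -(x2 ^ 2) * r1 - a * y ^ 2 * r2
    · rw [div_pow, div_eq_iff (pow_ne_zero 2 (mul_ne_zero hy hy2))]
      linear_combination M2 ^ 2 * q2 + b * y ^ 2 * q4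
  by_cases he2 : e2 = 0
  · exfalso
    subst he2
    have hM2 : M2 ≠ 0 := by rcases hMe2 with h | h; exact h; exact absurd rfl h
    have h5 : a2 * M2 ^ 2 * e ^ 2 = 0 := by linear_combination -hD
    exact (mul_ne_zero (mul_ne_zero ha2 (pow_ne_zero 2 hM2)) (pow_ne_zero 2 he)) h5
  -- the same point of order two
  have g1 : a * M ^ 2 * e2 ^ 2 = a2 * M2 ^ 2 * e ^ 2 := by linear_combination hD
  have g2 : b * x ^ 2 * e2 ^ 2 = b2 * x2 ^ 2 * e ^ 2 := by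
    linear_combination -e2 ^ 2 * h1 + e ^ 2 * h3 + hD
  have g3 : a * b * y ^ 2 * e2 ^ 2 = a2 * b2 * y2 ^ 2 * e ^ 2 := by
    linear_combination -e2 ^ 2 * h2 + e ^ 2 * h4 + hD
  -- squares from one relation
  have sqa : M ≠ 0 → ∃ s : K, s ^ 2 = a * a2 := by
    intro hM
    refine ⟨a2 * M2 * e / (M * e2), ?_⟩
    rw [div_pow, div_eq_iff (pow_ne_zero 2 (mul_ne_zero hM he2))]
    linear_combination -a2 * g1
  have sqb : x ≠ 0 → ∃ t : K, t ^ 2 = b * b2 := by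
    intro hx
    refine ⟨b2 * x2 * e / (x * e2), ?_⟩
    rw [div_pow, div_eq_iff (pow_ne_zero 2 (mul_ne_zero hx he2))]
    linear_combination -b2 * g2
  have sqab : y ≠ 0 → ∃ r : K, r ^ 2 = (a * a2) * (b * b2) := by
    intro hy
    refine ⟨a2 * b2 * y2 * e / (y * e2), ?_⟩
    rw [div_pow, div_eq_iff (pow_ne_zero 2 (mul_ne_zero hy he2))]
    linear_combination -(a2 * b2) * g3
  have haa : a * a2 ≠ 0 := mul_ne_zero ha ha2
  have hbb : b * b2 ≠ 0 := mul_ne_zero hb hb2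
  -- at most one of `M, x, y` vanishes
  have e2ne : e ^ 2 ≠ 0 := pow_ne_zero 2 he
  have n1 : ¬ (M = 0 ∧ x = 0) := by
    rintro ⟨rfl, rfl⟩
    have : A * e ^ 2 = 0 := by linear_combination -h1
    exact mul_ne_zero hA e2ne this
  have n2 : ¬ (M = 0 ∧ y = 0) := by
    rintro ⟨rfl, rfl⟩
    have : B * e ^ 2 = 0 := by linear_combination -h2
    exact mul_ne_zero hB e2ne this
  have n3 : ¬ (x = 0 ∧ y = 0) := by
    rintro ⟨rfl, rfl⟩
    have : (A - B) * e ^ 2 = 0 := by linear_combination h2 - h1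
    exact mul_ne_zero (sub_ne_zero.2 hAB) e2ne this
  by_cases hM : M = 0
  · have hx : x ≠ 0 := fun h => n1 ⟨hM, h⟩
    have hy : y ≠ 0 := fun h => n2 ⟨hM, h⟩
    obtain ⟨t, ht⟩ := sqb hx
    obtain ⟨r, hr⟩ := sqab hy
    refine ⟨r / t, t, ?_, ht⟩
    rw [div_pow, hr, ht]
    field_simp
  · obtain ⟨s, hs⟩ := sqa hM
    by_cases hx : x = 0
    · have hy : y ≠ 0 := fun h => n3 ⟨hx, h⟩
      obtain ⟨r, hr⟩ := sqab hy
      refine ⟨s, r / s, hs, ?_⟩
      rw [div_pow, hr, hs]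
      field_simp
    · obtain ⟨t, ht⟩ := sqb hx
      exact ⟨s, t, hs, ht⟩

end Pool.Agent.TH469.ZC
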