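import Mathlib
import Pool.Agent.TH841.ZC.Stm
import Pool.Agent.TH469.ZC.Mul

/-! ZC-MUM: the class of a divisor in Mumford representation is the class of a point, by one function
with prescribed divisor. -/

set_option autoImplicit false

namespace Pool.Agent.TH469.ZC

open Polynomial Pool.Agent.TH841.ZC

variable {K : Type} [Field K]

/-- polynomials from their coefficients -/
noncomputable def pol (K : Type) [Field K] (k : ℕ) : (Fin k → K) →ₗ[K] K[X] :=
  ∑ i : Fin k, (Polynomial.monomial (i : ℕ)).comp (LinearMap.proj i)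

theorem pol_apply {k : ℕ} (c : Fin k → K) : pol K k c = ∑ i : Fin k, monomial (i : ℕ) (c i) := by
  simp [pol]

theorem pol_coeff {k : ℕ} (c : Fin k → K) (i : Fin k) : (pol K k c).coeff i = c i := by
  rw [pol_apply, finset_sum_coeff, Finset.sum_eq_single i]
  · simp
  · intro j _ hj
    rw [coeff_monomial, if_neg]
    intro h
    exact hj (Fin.ext h)
  · simp

theorem pol_degree {k : ℕ} (c : Fin k → K) : (pol K k c).degree < k := by
  rw [pol_apply]
  refine lt_of_le_of_lt (degree_sum_le _ _) ?_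
  rw [Finset.sup_lt_iff]
  · intro i _
    refine lt_of_le_of_lt (degree_monomial_le _ _) ?_
    exact_mod_cast i.2
  · exact WithBot.bot_lt_coe _

theorem exists_ab {u v : K[X]} (hu : u.Monic) (hn : 0 < u.natDegree) : ∃ a b : K[X], (a ≠ 0 ∨ b ≠ 0) ∧
    a.degree < (((u.natDegree + 1) / 2 + 1 : ℕ) : WithBot ℕ) ∧ b.degree < ((u.natDegree / 2 : ℕ) : WithBot ℕ) ∧
    u ∣ a + b * v := by
  obtain ⟨k1, hk1⟩ : ∃ k, k = (u.natDegree + 1) / 2 + 1 := ⟨_, rfl⟩
  obtain ⟨k2, hk2⟩ : ∃ k, k = u.natDegree / 2 := ⟨_, rfl⟩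
  rw [← hk1, ← hk2]
  have hu0 : u ≠ 0 := hu.ne_zero
  have hfr : Module.finrank K (K[X] ⧸ Ideal.span {u}) = u.natDegree :=
    finrank_quotient_span_eq_natDegree
  haveI : FiniteDimensional K (K[X] ⧸ Ideal.span {u}) := Module.finite_of_finrank_pos (by omega)
  let φ : ((Fin k1 → K) × (Fin k2 → K)) →ₗ[K] (K[X] ⧸ Ideal.span {u}) :=
    (Ideal.Quotient.mkₐ K (Ideal.span {u})).toLinearMap.comp
      ((pol K k1).comp (LinearMap.fst K _ _) +
        (LinearMap.mulRight K v).comp ((pol K k2).comp (LinearMap.snd K _ _)))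
  have hker : LinearMap.ker φ ≠ ⊥ := by
    apply LinearMap.ker_ne_bot_of_finrank_lt
    rw [hfr, Module.finrank_prod, Module.finrank_fin_fun, Module.finrank_fin_fun]
    omega
  obtain ⟨c, hc, hc0⟩ := (Submodule.ne_bot_iff _).1 hker
  refine ⟨pol K k1 c.1, pol K k2 c.2, ?_, pol_degree _, pol_degree _, ?_⟩
  · by_contra hcon
    push Not at hcon
    apply hc0
    ext i
    · rw [← pol_coeff c.1 i, hcon.1]; simp
    · rw [← pol_coeff c.2 i, hcon.2]; simp
  · rw [LinearMap.mem_ker] at hc
    have h1 : Ideal.Quotient.mk (Ideal.span {u}) (pol K k1 c.1 + pol K k2 c.2 * v) = 0 := hc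
    rw [Ideal.Quotient.eq_zero_iff_mem, Ideal.mem_span_singleton] at h1
    exact h1

/-- the cubic -/
noncomputable def cub (A B : K) : K[X] := X * (X - C A) * (X - C B)

theorem cub_monic (A B : K) : (cub A B).Monic := (monic_X.mul (monic_X_sub_C A)).mul (monic_X_sub_C B)

theorem cub_natDegree (A B : K) : (cub A B).natDegree = 3 := by
  unfold cub
  rw [(monic_X.mul (monic_X_sub_C A)).natDegree_mul (monic_X_sub_C B),
    monic_X.natDegree_mul (monic_X_sub_C A)]
  simp

/-- the leading coefficient of a norm -/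
theorem lead {A B : K} {a b : K[X]} (h : a ≠ 0 ∨ b ≠ 0) {n : ℕ}
    (ha : a.degree < (((n + 1) / 2 + 1 : ℕ) : WithBot ℕ)) (hb : b.degree < ((n / 2 : ℕ) : WithBot ℕ)) :
    ∃ s : K, s ≠ 0 ∧ (a ^ 2 - b ^ 2 * cub A B) ≠ 0 ∧ (a ^ 2 - b ^ 2 * cub A B).natDegree ≤ n + 1 ∧
      (a ^ 2 - b ^ 2 * cub A B).leadingCoeff = (-1) ^ (a ^ 2 - b ^ 2 * cub A B).natDegree * s ^ 2 := by
  have hF := cub_monic A B
  have hF3 := cub_natDegree A B
  have hF0 := hF.ne_zero
  have da : a ≠ 0 → a.natDegree < (n + 1) / 2 + 1 := by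
    intro h0
    rw [degree_eq_natDegree h0] at ha
    exact_mod_cast ha
  have db : b ≠ 0 → b.natDegree < n / 2 := by
    intro h0
    rw [degree_eq_natDegree h0] at hb
    exact_mod_cast hb
  have nb : b ≠ 0 → (b ^ 2 * cub A B).natDegree = 2 * b.natDegree + 3 := by
    intro h0
    rw [natDegree_mul (pow_ne_zero 2 h0) hF0, natDegree_pow, hF3]
  have na : (a ^ 2).natDegree = 2 * a.natDegree := natDegree_pow _ _
  have lb : (b ^ 2 * cub A B).leadingCoeff = b.leadingCoeff ^ 2 := by
    rw [leadingCoeff_mul, leadingCoeff_pow, hF.leadingCoeff, mul_one]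
  have la : (a ^ 2).leadingCoeff = a.leadingCoeff ^ 2 := leadingCoeff_pow _ _
  by_cases hb0 : b = 0
  · have ha0 : a ≠ 0 := by rcases h with h | h; exact h; exact absurd hb0 h
    have hda := da ha0
    have e : a ^ 2 - b ^ 2 * cub A B = a ^ 2 := by rw [hb0]; ring
    rw [e]
    refine ⟨a.leadingCoeff, leadingCoeff_ne_zero.2 ha0, pow_ne_zero 2 ha0, by omega, ?_⟩
    rw [la, na, pow_mul]
    simp
  by_cases ha0 : a = 0
  · have hdb := db hb0
    have hnb := nb hb0
    have e : a ^ 2 - b ^ 2 * cub A B = -(b ^ 2 * cub A B) := by rw [ha0]; ring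
    rw [e]
    refine ⟨b.leadingCoeff, leadingCoeff_ne_zero.2 hb0, neg_ne_zero.2 (mul_ne_zero (pow_ne_zero 2 hb0) hF0),
      by rw [natDegree_neg]; omega, ?_⟩
    rw [leadingCoeff_neg, lb, natDegree_neg, hnb, pow_add, pow_mul]
    norm_num
  have hda := da ha0
  have hdb := db hb0
  have hnb := nb hb0
  rcases Nat.lt_or_ge (2 * b.natDegree + 3) (2 * a.natDegree) with hlt | hge
  · have h1 : (b ^ 2 * cub A B).natDegree < (a ^ 2).natDegree := by omega
    have e1 := natDegree_sub_eq_left_of_natDegree_lt h1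
    have e2 := leadingCoeff_sub_of_degree_lt (degree_lt_degree h1)
    refine ⟨a.leadingCoeff, leadingCoeff_ne_zero.2 ha0, ?_, by rw [e1]; omega, ?_⟩
    · intro h0
      rw [h0, leadingCoeff_zero, la] at e2
      exact pow_ne_zero 2 (leadingCoeff_ne_zero.2 ha0) e2.symm
    · rw [e2, e1, la, na, pow_mul]
      simp
  · have h1 : (a ^ 2).natDegree < (b ^ 2 * cub A B).natDegree := by omega
    have e1 := natDegree_sub_eq_right_of_natDegree_lt h1
    have e2 := leadingCoeff_sub_of_degree_lt' (degree_lt_degree h1)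
    refine ⟨b.leadingCoeff, leadingCoeff_ne_zero.2 hb0, ?_, by rw [e1]; omega, ?_⟩
    · intro h0
      rw [h0, leadingCoeff_zero, lb] at e2
      have := neg_eq_zero.1 e2.symm
      exact pow_ne_zero 2 (leadingCoeff_ne_zero.2 hb0) this
    · rw [e2, e1, lb, hnb, pow_add, pow_mul]
      norm_num

theorem mum : MUM := by
  intro K _ _ A B u v hA hB hAB hu hdvd hu0 huA huB
  change u ∣ cub A B - v ^ 2 at hdvd
  obtain ⟨n, hn⟩ : ∃ n, n = u.natDegree := ⟨_, rfl⟩
  rw [← hn]
  rcases Nat.eq_zero_or_pos n with h0 | hpos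
  · have h1 : u = 1 := hu.natDegree_eq_zero.1 (by omega)
    rw [h1, h0]
    simp only [pow_zero, eval_one, one_mul]
    have := cls_sq (K := K) (A := A) (B := B) (s := 1) (t := 1) one_ne_zero one_ne_zero
    simpa using this
  obtain ⟨a, b, hab, hda, hdb, hd⟩ := exists_ab (v := v) hu (by omega)
  rw [← hn] at hda hdb
  obtain ⟨s, hs, hG0, hGd, hGl⟩ := lead (A := A) (B := B) hab hda hdb
  obtain ⟨G, hG⟩ : ∃ G, G = a ^ 2 - b ^ 2 * cub A B := ⟨_, rfl⟩
  rw [← hG] at hG0 hGd hGl
  have hdG : u ∣ G := by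
    have e : G = (a + b * v) * (a - b * v) - b ^ 2 * (cub A B - v ^ 2) := by rw [hG]; ring
    rw [e]
    exact dvd_sub (hd.mul_right _) (hdvd.mul_left _)
  obtain ⟨g, hg⟩ := hdG
  have hune : u ≠ 0 := hu.ne_zero
  have hgne : g ≠ 0 := by rintro rfl; apply hG0; rw [hg, mul_zero]
  have hdeg : G.natDegree = n + g.natDegree := by rw [hg, natDegree_mul hune hgne, hn]
  have hlg : G.leadingCoeff = g.leadingCoeff := by rw [hg, leadingCoeff_mul, hu.leadingCoeff, one_mul]
  have hg1 : g.natDegree ≤ 1 := by omega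
  obtain ⟨σ, hσ⟩ : ∃ σ : K, σ = (-1) ^ n := ⟨_, rfl⟩
  have hσ2 : σ * σ = 1 := by rw [hσ, ← mul_pow]; simp
  have hσ0 : σ ≠ 0 := by rintro rfl; simp at hσ2
  rw [← hσ]
  have evc : ∀ r : K, (cub A B).eval r = r * (r - A) * (r - B) := by intro r; simp [cub]
  have evG : ∀ r : K, G.eval r = a.eval r ^ 2 - b.eval r ^ 2 * (r * (r - A) * (r - B)) := by
    intro r
    rw [hG]
    simp [evc]
  have evG' : ∀ r : K, G.eval r = u.eval r * g.eval r := by intro r; rw [hg, eval_mul]
  have r0 : a.eval 0 ^ 2 = u.eval 0 * g.eval 0 := by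
    rw [← evG', evG]; ring
  have rA : a.eval A ^ 2 = u.eval A * g.eval A := by
    rw [← evG', evG]; ring
  rcases Nat.lt_or_ge g.natDegree 1 with hlt | hge
  · -- constant
    have hg0 : g.natDegree = 0 := by omega
    obtain ⟨c, hc⟩ : ∃ c : K, g = C c := ⟨_, eq_C_of_natDegree_eq_zero hg0⟩
    have hcl : c = σ * s ^ 2 := by
      rw [hdeg, hg0, add_zero, ← hσ, hlg, hc, leadingCoeff_C] at hGl
      exact hGl
    rw [hc, eval_C, hcl] at r0 rA
    have n0 : a.eval 0 ≠ 0 := by
      intro h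
      rw [h] at r0
      have : u.eval 0 * (σ * s ^ 2) ≠ 0 := mul_ne_zero hu0 (mul_ne_zero hσ0 (pow_ne_zero 2 hs))
      apply this
      rw [← r0]; ring
    have nA : a.eval A ≠ 0 := by
      intro h
      rw [h] at rA
      have : u.eval A * (σ * s ^ 2) ≠ 0 := mul_ne_zero huA (mul_ne_zero hσ0 (pow_ne_zero 2 hs))
      apply this
      rw [← rA]; ring
    have e0 : σ * u.eval 0 = (a.eval 0 / s) ^ 2 := by
      rw [div_pow, eq_div_iff (pow_ne_zero 2 hs)]
      linear_combination -r0
    have eA : σ * u.eval A = (a.eval A / s) ^ 2 := by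
      rw [div_pow, eq_div_iff (pow_ne_zero 2 hs)]
      linear_combination -rA
    rw [e0, eA]
    exact cls_sq (div_ne_zero n0 hs) (div_ne_zero nA hs)
  · -- linear
    have hg1' : g.natDegree = 1 := by omega
    obtain ⟨c, hc⟩ : ∃ c : K, c = g.leadingCoeff := ⟨_, rfl⟩
    have hcl : c = -(σ * s ^ 2) := by
      rw [hdeg, hg1', pow_succ, ← hσ, hlg, ← hc] at hGl
      rw [hGl]; ring
    have hc0 : c ≠ 0 := by rw [hc]; exact leadingCoeff_ne_zero.2 hgne
    obtain ⟨p, hp⟩ : ∃ p : K, g = C c * (X - C p) := by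
      refine ⟨-(g.coeff 0) / c, ?_⟩
      have h1 := eq_X_add_C_of_natDegree_le_one hg1
      have h2 : g.coeff 1 = c := by rw [hc, leadingCoeff, hg1']
      rw [h2] at h1
      rw [mul_sub, ← C_mul, mul_div_cancel₀ _ hc0, C_neg, sub_neg_eq_add]
      exact h1
    have evg : ∀ r : K, g.eval r = c * (r - p) := by intro r; rw [hp]; simp
    rw [evg] at r0 rA
    -- the value of the cubic at `p` is a square
    obtain ⟨yp, hyp⟩ : ∃ yp : K, yp ^ 2 = p * (p - A) * (p - B) := by
      have h1 : a.eval p ^ 2 = b.eval p ^ 2 * (p * (p - A) * (p - B)) := by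
        have h2 := evG p
        rw [evG', evg] at h2
        linear_combination -h2
      by_cases hbp : b.eval p = 0
      · have hap : a.eval p = 0 := by
          rw [hbp] at h1
          have : a.eval p ^ 2 = 0 := by rw [h1]; ring
          exact pow_eq_zero_iff (two_ne_zero) |>.1 this
        obtain ⟨a', ha'⟩ := dvd_iff_isRoot.2 hap
        obtain ⟨b', hb'⟩ := dvd_iff_isRoot.2 hbp
        have h3 : (X - C p) * (C c * u) = (X - C p) * ((X - C p) * (a' ^ 2 - b' ^ 2 * cub A B)) := by
          have h4 : G = u * g := hg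
          rw [hG, hp, ha', hb'] at h4
          linear_combination -h4
        have h5 := mul_left_cancel₀ (X_sub_C_ne_zero p) h3
        have h6 : c * u.eval p = 0 := by
          have := congrArg (eval p) h5
          simpa using this
        have h7 : u.eval p = 0 := (mul_eq_zero.1 h6).resolve_left hc0
        obtain ⟨q, hq⟩ := hdvd
        have h8 := congrArg (eval p) hq
        rw [eval_sub, eval_mul, h7, zero_mul, eval_pow, evc] at h8
        exact ⟨v.eval p, by linear_combination -h8⟩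
      · refine ⟨a.eval p / b.eval p, ?_⟩
        rw [div_pow, div_eq_iff (pow_ne_zero 2 hbp), h1]
        ring
    obtain ⟨α, hα⟩ : ∃ α : K, α = σ * u.eval 0 := ⟨_, rfl⟩
    obtain ⟨β, hβ⟩ : ∃ β : K, β = σ * u.eval A := ⟨_, rfl⟩
    have hα0 : α ≠ 0 := by rw [hα]; exact mul_ne_zero hσ0 hu0
    have hβ0 : β ≠ 0 := by rw [hβ]; exact mul_ne_zero hσ0 huA
    rw [← hα, ← hβ]
    have s0 : a.eval 0 ^ 2 = α * s ^ 2 * p := by rw [r0, hcl, hα]; ring
    have sA : a.eval A ^ 2 = β * s ^ 2 * (p - A) := by rw [rA, hcl, hβ]; ring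
    have hs2 : s ^ 2 ≠ 0 := pow_ne_zero 2 hs
    by_cases hp0 : p = 0
    · -- the point (0, 0)
      have ha0 : a.eval 0 = 0 := by
        have : a.eval 0 ^ 2 = 0 := by rw [s0, hp0]; ring
        exact pow_eq_zero_iff (two_ne_zero) |>.1 this
      obtain ⟨a1, ha1⟩ := dvd_iff_isRoot.2 ha0
      have h3 : (X : K[X]) * (C c * u) = X * (X * a1 ^ 2 - b ^ 2 * ((X - C A) * (X - C B))) := by
        have h4 : G = u * g := hg
        rw [hG, hp, ha1, hp0] at h4
        unfold cub at h4
        rw [C_0, sub_zero] at h4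
        linear_combination -h4
      have h5 := mul_left_cancel₀ X_ne_zero h3
      have h6 : c * u.eval 0 = -(b.eval 0 ^ 2 * (A * B)) := by
        have := congrArg (eval 0) h5
        simpa using this
      have h7 : α * s ^ 2 = b.eval 0 ^ 2 * (A * B) := by
        rw [hα]; rw [hcl] at h6; linear_combination -h6
      have hb0 : b.eval 0 ≠ 0 := by
        intro h
        rw [h] at h7
        apply mul_ne_zero hα0 hs2
        rw [h7]; ring
      have haA : a.eval A ≠ 0 := by
        intro h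
        rw [h, hp0] at sA
        apply mul_ne_zero (mul_ne_zero hβ0 hs2) (neg_ne_zero.2 hA)
        linear_combination -sA
      rw [hp0] at sA
      refine ⟨0, 1, A * s / a.eval A, s ^ 2 / (b.eval 0 * a.eval A), Or.inr one_ne_zero, ?_, ?_⟩
      · rw [div_pow, mul_div_assoc', eq_div_iff (pow_ne_zero 2 haA)]
        linear_combination -A * sA
      · rw [div_pow, mul_div_assoc', eq_div_iff (pow_ne_zero 2 (mul_ne_zero hb0 haA))]
        linear_combination -B * b.eval 0 ^ 2 * sA - β * s ^ 2 * h7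
    by_cases hpA : p = A
    · have ha0 : a.eval A = 0 := by
        have : a.eval A ^ 2 = 0 := by rw [sA, hpA]; ring
        exact pow_eq_zero_iff (two_ne_zero) |>.1 this
      obtain ⟨a1, ha1⟩ := dvd_iff_isRoot.2 ha0
      have h3 : (X - C A) * (C c * u) = (X - C A) * ((X - C A) * a1 ^ 2 - b ^ 2 * (X * (X - C B))) := by
        have h4 : G = u * g := hg
        rw [hG, hp, ha1, hpA] at h4
        unfold cub at h4
        linear_combination -h4
      have h5 := mul_left_cancel₀ (X_sub_C_ne_zero A) h3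
      have h6 : c * u.eval A = -(b.eval A ^ 2 * (A * (A - B))) := by
        have := congrArg (eval A) h5
        simpa using this
      have h7 : β * s ^ 2 = b.eval A ^ 2 * (A * (A - B)) := by
        rw [hβ]; rw [hcl] at h6; linear_combination -h6
      have hbA : b.eval A ≠ 0 := by
        intro h
        rw [h] at h7
        apply mul_ne_zero hβ0 hs2
        rw [h7]; ring
      have ha00 : a.eval 0 ≠ 0 := by
        intro h
        rw [h, hpA] at s0
        apply mul_ne_zero (mul_ne_zero hα0 hs2) hA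
        linear_combination -s0
      rw [hpA] at s0
      refine ⟨s * A / a.eval 0, 1, 0, s ^ 2 / (a.eval 0 * b.eval A), Or.inr one_ne_zero, ?_, ?_⟩
      · have e : α * (s * A / a.eval 0) ^ 2 = A := by
          rw [div_pow, mul_div_assoc', div_eq_iff (pow_ne_zero 2 ha00)]
          linear_combination -A * s0
        rw [e]; ring
      · have e : α * (s * A / a.eval 0) ^ 2 = A := by
          rw [div_pow, mul_div_assoc', div_eq_iff (pow_ne_zero 2 ha00)]
          linear_combination -A * s0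
        have e2 : α * β * (s ^ 2 / (a.eval 0 * b.eval A)) ^ 2 = A - B := by
          rw [div_pow, mul_div_assoc', div_eq_iff (pow_ne_zero 2 (mul_ne_zero ha00 hbA))]
          linear_combination -(A - B) * b.eval A ^ 2 * s0 + α * s ^ 2 * h7
        rw [e, e2]; ring
    -- the general case
    have hpA' : p - A ≠ 0 := sub_ne_zero.2 hpA
    have ha00 : a.eval 0 ≠ 0 := by
      intro h
      rw [h] at s0
      apply mul_ne_zero (mul_ne_zero hα0 hs2) hp0
      linear_combination -s0
    have haA : a.eval A ≠ 0 := by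
      intro h
      rw [h] at sA
      apply mul_ne_zero (mul_ne_zero hβ0 hs2) hpA'
      linear_combination -sA
    have e : α * (s * p / a.eval 0) ^ 2 = p := by
      rw [div_pow, mul_div_assoc', div_eq_iff (pow_ne_zero 2 ha00)]
      linear_combination -p * s0
    have e1 : β * (s * (p - A) / a.eval A) ^ 2 = p - A := by
      rw [div_pow, mul_div_assoc', div_eq_iff (pow_ne_zero 2 haA)]
      linear_combination -(p - A) * sA
    have e2 : α * β * (yp * s ^ 2 / (a.eval 0 * a.eval A)) ^ 2 = p - B := by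
      rw [div_pow, mul_div_assoc', div_eq_iff (pow_ne_zero 2 (mul_ne_zero ha00 haA))]
      linear_combination -(p - B) * a.eval A ^ 2 * s0 - (p - B) * α * s ^ 2 * p * sA +
        α * β * s ^ 4 * hyp
    refine ⟨s * p / a.eval 0, 1, s * (p - A) / a.eval A, yp * s ^ 2 / (a.eval 0 * a.eval A),
      Or.inr one_ne_zero, ?_, ?_⟩
    · rw [e, e1]; ring
    · rw [e, e2]; ring

end Pool.Agent.TH469.ZC
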